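import Pool.Agent.K7.H57.CDM.Enc

/-!
# The cases

`K = {0, k1, k2, k1 ^^^ k2}` is the kernel `{k : Z 15 k}`. The columns are ordered by the functional
they induce on `K`: class `1` (`b`, in `k1` and `k2`), class `2` (`g`, in `k2` only), class `3`
(`a`, in `k1` only), class `0` (not in the support).

Type II (`ty = true`): `D (e_i, k1) = y_i u_1`, `D (e_i, k2) = y_i u_2`, `D (15, e_j) = 0` on the support.
Type I (`ty = false`): `D (e_i, k1) = y_i u_1`, `D (e_i, k2) = 0`, `D (15, e_j) = 0` for the columns of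
class `1`, `2` and `D (15, e_j) ∈ {0, u_1}` for the columns of class `3`.
-/

set_option autoImplicit false

namespace Pool.Agent.K7.H57.CDM

structure Cs where
  ty : Bool
  nb : ℕ
  ng : ℕ
  na : ℕ
  /-- mask of the rows -/
  y : ℕ
deriving DecidableEq

/-- class of the column `j` -/
def cls (c : Cs) (j : ℕ) : ℕ :=
  if j < c.nb then 1 else if j < c.nb + c.ng then 2 else if j < c.nb + c.ng + c.na then 3 else 0

/-- columns of class `1` and `3` -/
def k1 (c : Cs) : ℕ := (2 ^ c.nb - 1) + (2 ^ c.na - 1) * 2 ^ (c.nb + c.ng)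
/-- columns of class `1` and `2` -/
def k2 (c : Cs) : ℕ := 2 ^ (c.nb + c.ng) - 1

/-- the literal `v = b` -/
def lit (v : ℕ) (b : Bool) : ℕ := if b then ps v else ng v

/-- the unit literals of the case -/
def units (c : Cs) : List ℕ :=
  [ps (vZ 15 (k1 c)), ps (vZ 15 (k2 c))] ++
  ((List.range 4).map fun i => [lit (vD 0 (2 ^ i) (k1 c)) (c.y.testBit i), ng (vD 1 (2 ^ i) (k1 c)),
    ng (vD 0 (2 ^ i) (k2 c)), lit (vD 1 (2 ^ i) (k2 c)) (c.ty && c.y.testBit i)]).flatten ++
  ((List.range 6).map fun j => if cls c j = 0 then [] else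
    if c.ty = true ∨ cls c j ≠ 3 then [ng (vD 0 15 (2 ^ j)), ng (vD 1 15 (2 ^ j))] else
      [ng (vD 1 15 (2 ^ j))]).flatten

/-- comparison of the columns `j`, `j + 1` -/
def lexCol (j : ℕ) : List (ℕ × ℕ) :=
  ((List.range 4).map fun i => (List.range 2).map fun b =>
    (vD b (2 ^ i) (2 ^ j), vD b (2 ^ i) (2 ^ (j + 1)))).flatten

/-- comparison of the rows `i`, `i + 1` -/
def lexRow (i : ℕ) : List (ℕ × ℕ) :=
  ((List.range 6).map fun j => (List.range 2).map fun b =>
    (vD b (2 ^ i) (2 ^ j), vD b (2 ^ (i + 1)) (2 ^ j))).flatten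

/-- comparison with the image under `(x, y) ↦ (x + y, y)` -/
def lexG : List (ℕ × ℕ) :=
  ((List.range 4).map fun i => ((List.range 6).map fun j =>
    [(vD 0 (2 ^ i) (2 ^ j), vD 2 (2 ^ i) (2 ^ j)), (vD 1 (2 ^ i) (2 ^ j), vD 1 (2 ^ i) (2 ^ j))]).flatten).flatten

/-- the lexicographic constraints: columns of the same class, rows of the same `y`, and, for type I,
the stabiliser of `u_1` -/
def lexs (c : Cs) : List (List (ℕ × ℕ)) :=
  (((List.range 5).filter fun j => cls c j == cls c (j + 1)).map lexCol) ++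
  (((List.range 3).filter fun i => c.y.testBit i == c.y.testBit (i + 1)).map lexRow) ++
  (if c.ty = true then [] else [lexG])

/-- the cases -/
def cases : List Cs :=
  ((([(1, 0, 1), (1, 1, 1), (1, 0, 2), (2, 0, 2), (1, 0, 3), (1, 1, 2)] : List (ℕ × ℕ × ℕ)).map
    fun t => [(⟨true, t.1, t.2.1, t.2.2, 15⟩ : Cs), ⟨true, t.1, t.2.1, t.2.2, 3⟩]).flatten) ++
  (((List.range 5).map fun s => ((List.range (s / 2 + 1)).map fun g =>
    ((List.range (7 - s)).map fun a => if s = 0 ∨ (g = 0 ∧ a = 0) then [] else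
      [(⟨false, s - g, g, a, 15⟩ : Cs), ⟨false, s - g, g, a, 3⟩, ⟨false, s - g, g, a, 0⟩]).flatten).flatten).flatten)

/-- the search: no case is possible -/
def StSearch : Prop := ∀ c ∈ cases, ∀ (D : ℕ → ℕ → ℕ → Bool) (Z : ℕ → ℕ → Bool), Facts D Z →
  ¬ Case D Z (units c) (lexs c)

end Pool.Agent.K7.H57.CDM
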