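import Mathlib

/-!
# Contracted difference matrices over `ℤ_4² × ℤ_2²` with four rows: the propositional encoding

`D f a k` (`f = 0, 1, 2`, `a < 16`, `k < 64` bit masks of rows and columns): the `f`-th functional of
`2 M (a, k)`; `Z a k`: the sum of the entries of `M` in `a × k` is in `2 G`.
-/

set_option autoImplicit false

namespace Pool.Agent.K7.H57.CDM

/-- the functional `f` kills the rows of `a` at `k` and the columns of `k` at `a` -/
def PP (D : ℕ → ℕ → ℕ → Bool) (f a k : ℕ) : Bool :=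
  (List.range 4).all (fun i => !(a.testBit i) || !(D f (2 ^ i) k)) &&
    (List.range 6).all (fun j => !(k.testBit j) || !(D f a (2 ^ j)))

/-- parity of the number of bits of a number less than `64` -/
def par (x : ℕ) : Bool :=
  x.testBit 0 ^^ x.testBit 1 ^^ x.testBit 2 ^^ x.testBit 3 ^^ x.testBit 4 ^^ x.testBit 5

/-- the facts about contracted difference matrices which are used by the search -/
structure Facts (D : ℕ → ℕ → ℕ → Bool) (Z : ℕ → ℕ → Bool) : Prop where
  addk : ∀ f a k k', f < 3 → a < 16 → k < 64 → k' < 64 → D f a (k ^^^ k') = (D f a k ^^ D f a k')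
  adda : ∀ f a a' k, f < 3 → a < 16 → a' < 16 → k < 64 → D f (a ^^^ a') k = (D f a k ^^ D f a' k)
  third : ∀ a k, a < 16 → k < 64 → D 2 a k = (D 0 a k ^^ D 1 a k)
  zd : ∀ f a k, f < 3 → 0 < a → a < 16 → 0 < k → k < 64 → Z a k = true → D f a k = false
  zk : ∀ a k k', 0 < a → a < 16 → 0 < k → k < 64 → 0 < k' → k' < 64 → k ≠ k' →
    Z a k = true → Z a k' = true → Z a (k ^^^ k') = true
  za : ∀ k a a', 0 < k → k < 64 → 0 < a → a < 16 → 0 < a' → a' < 16 → a ≠ a' →
    Z a k = true → Z a' k = true → Z (a ^^^ a') k = true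
  ind : ∀ k a b c, 0 < k → k < 64 → 0 < a → a < 16 → 0 < b → b < 16 → 0 < c → c < 16 →
    a ≠ b → a ≠ c → b ≠ c → a ^^^ b ≠ c → ¬ (Z a k = true ∧ Z b k = true ∧ Z c k = true)
  hyp : ∀ a h, 0 < a → a < 16 → 0 < h → h < 64 →
    ∃ k, 0 < k ∧ k < 64 ∧ par (k &&& h) = false ∧ Z a k = true
  col : ∀ a k, 0 < a → a < 16 → 0 < k → k < 64 → Z a k = true →
    PP D 0 a k = true ∨ PP D 1 a k = true ∨ PP D 2 a k = true
  lay : ∀ f a, f < 3 → 0 < a → a < 16 → ∃ k, 0 < k ∧ k < 64 ∧ Z a k = true ∧ PP D f a k = true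
  onto : ∀ f a, f < 3 → 0 < a → a < 16 → ∃ j, j < 6 ∧ D f a (2 ^ j) = true

/-! ### variables and literals: `2 v` is the variable `v`, `2 v + 1` its negation -/

/-- the variable `D f a k` -/
def vD (f a k : ℕ) : ℕ := 1024 * f + 64 * a + k
/-- the variable `Z a k` -/
def vZ (a k : ℕ) : ℕ := 3072 + 64 * a + k
/-- the variable `PP f a k` -/
def vP (f a k : ℕ) : ℕ := 5120 + 1024 * f + 64 * a + k
/-- the variable `Z a k ∧ PP f a k` -/
def vQ (f a k : ℕ) : ℕ := 8192 + 1024 * f + 64 * a + k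
/-- the prefix variable `p` of the lexicographic constraint `c` -/
def vL (c p : ℕ) : ℕ := 4096 + 64 * c + p

/-- value of a `D`-variable -/
def dval (D : ℕ → ℕ → ℕ → Bool) (v : ℕ) : Bool := D (v / 1024) (v / 64 % 16) (v % 64)

/-- the first `n` pairs of the list are equal -/
def pre (D : ℕ → ℕ → ℕ → Bool) (L : List (ℕ × ℕ)) (n : ℕ) : Bool :=
  (L.take n).all fun p => dval D p.1 == dval D p.2

/-- lexicographic comparison of the values of the variables -/
def lexle (D : ℕ → ℕ → ℕ → Bool) : List (ℕ × ℕ) → Bool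
  | [] => true
  | p :: L => if dval D p.1 == dval D p.2 then lexle D L else !(dval D p.1)

/-- the values of the variables -/
def val (D : ℕ → ℕ → ℕ → Bool) (Z : ℕ → ℕ → Bool) (L : List (List (ℕ × ℕ))) (v : ℕ) : Bool :=
  if v < 3072 then D (v / 1024) (v / 64 % 16) (v % 64)
  else if v < 4096 then Z (v / 64 % 16) (v % 64)
  else if v < 5120 then pre D (L.getD ((v - 4096) / 64) []) (v % 64 + 1)
  else if v < 8192 then PP D (v / 1024 - 5) (v / 64 % 16) (v % 64)
  else Z (v / 64 % 16) (v % 64) && PP D (v / 1024 - 8) (v / 64 % 16) (v % 64)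

/-- value of a literal -/
def lv (w : ℕ → Bool) (l : ℕ) : Bool := if l % 2 = 0 then w (l / 2) else !(w (l / 2))

/-- the clause is satisfied -/
def Sat (w : ℕ → Bool) (c : List ℕ) : Prop := ∃ l ∈ c, lv w l = true

/-- positive and negative literals -/
def ps (v : ℕ) : ℕ := 2 * v
def ng (v : ℕ) : ℕ := 2 * v + 1

/-- the four clauses of `x ⊕ y ⊕ z = 0` -/
def xor3 (s x y z : ℕ) : List ℕ :=
  if s = 0 then [ng x, ng y, ng z] else if s = 1 then [ng x, ps y, ps z]
  else if s = 2 then [ps x, ng y, ps z] else [ps x, ps y, ng z]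

/-- a trivial clause -/
def triv : List ℕ := [0, 1]

/-- the clauses. Code: family `n % 32`, then parameters of six bits -/
def clauseOf (U : List ℕ) (L : List (List (ℕ × ℕ))) (n : ℕ) : List ℕ :=
  let F := n % 32
  let p := n / 32 % 64
  let q := n / 2048 % 64
  let r := n / 131072 % 64
  let s := n / 8388608 % 64
  if F = 0 then -- parity in k : f a k s
    (if p < 3 ∧ q < 16 ∧ (r &&& (r - 1)) ≠ 0 then
      xor3 s (vD p q r) (vD p q (r &&& (r - 1))) (vD p q (r ^^^ (r &&& (r - 1)))) else triv)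
  else if F = 1 then -- parity in a
    (if p < 3 ∧ q < 16 ∧ (q &&& (q - 1)) ≠ 0 then
      xor3 s (vD p q r) (vD p (q &&& (q - 1)) r) (vD p (q ^^^ (q &&& (q - 1))) r) else triv)
  else if F = 2 then -- third functional : a k s
    (if p < 16 then xor3 r (vD 0 p q) (vD 1 p q) (vD 2 p q) else triv)
  else if F = 3 then -- Z -> D = 0 : f a k
    (if p < 3 ∧ 0 < q ∧ q < 16 ∧ 0 < r then [ng (vZ q r), ng (vD p q r)] else triv)
  else if F = 4 then -- closure in k : a k k'
    (if 0 < p ∧ p < 16 ∧ 0 < q ∧ 0 < r ∧ q ≠ r then [ng (vZ p q), ng (vZ p r), ps (vZ p (q ^^^ r))]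
      else triv)
  else if F = 5 then -- closure in a : k a a'
    (if 0 < p ∧ 0 < q ∧ q < 16 ∧ 0 < r ∧ r < 16 ∧ q ≠ r then
      [ng (vZ q p), ng (vZ r p), ps (vZ (q ^^^ r) p)] else triv)
  else if F = 6 then -- independent : k a b c
    (if 0 < p ∧ 0 < q ∧ q < 16 ∧ 0 < r ∧ r < 16 ∧ 0 < s ∧ s < 16 ∧ q ≠ r ∧ q ≠ s ∧ r ≠ s ∧
        q ^^^ r ≠ s then [ng (vZ q p), ng (vZ r p), ng (vZ s p)] else triv)
  else if F = 7 then -- hyperplane : a h
    (if 0 < p ∧ p < 16 ∧ 0 < q then
      ((List.range 64).filter fun k => k != 0 && !(par (k &&& q))).map (fun k => ps (vZ p k))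
      else triv)
  else if F = 8 then -- P rows : f a k i
    (if p < 3 ∧ q < 16 ∧ s < 4 ∧ q.testBit s = true then [ng (vP p q r), ng (vD p (2 ^ s) r)]
      else triv)
  else if F = 9 then -- P columns : f a k j
    (if p < 3 ∧ q < 16 ∧ s < 6 ∧ r.testBit s = true then [ng (vP p q r), ng (vD p q (2 ^ s))]
      else triv)
  else if F = 10 then -- colour : a k
    (if 0 < p ∧ p < 16 ∧ 0 < q then [ng (vZ p q), ps (vP 0 p q), ps (vP 1 p q), ps (vP 2 p q)]
      else triv)
  else if F = 11 then -- Q -> Z : f a k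
    (if p < 3 ∧ q < 16 then [ng (vQ p q r), ps (vZ q r)] else triv)
  else if F = 12 then -- Q -> P : f a k
    (if p < 3 ∧ q < 16 then [ng (vQ p q r), ps (vP p q r)] else triv)
  else if F = 13 then -- layer : f a
    (if p < 3 ∧ 0 < q ∧ q < 16 then (List.range 63).map (fun k => ps (vQ p q (k + 1))) else triv)
  else if F = 14 then -- onto : f a
    (if p < 3 ∧ 0 < q ∧ q < 16 then (List.range 6).map (fun j => ps (vD p q (2 ^ j))) else triv)
  else if F = 15 then -- unit : index
    (if p < U.length then [U.getD p 0] else triv)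
  else -- lexicographic : constraint, position, s
    (if p < 16 ∧ q < (L.getD p []).length then
      let x := ((L.getD p []).getD q (0, 0)).1
      let y := ((L.getD p []).getD q (0, 0)).2
      let t := if q = 0 then [] else [ng (vL p (q - 1))]
      if r = 0 then t ++ [ng x, ps y]
      else if r = 1 then t ++ [ps x, ps y, ps (vL p q)]
      else t ++ [ng x, ng y, ps (vL p q)]
    else triv)

/-- the hypotheses of a case: unit literals and lexicographic constraints (on `D`-variables) -/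
def Case (D : ℕ → ℕ → ℕ → Bool) (Z : ℕ → ℕ → Bool) (U : List ℕ) (L : List (List (ℕ × ℕ))) : Prop :=
  (∀ l ∈ U, lv (val D Z L) l = true) ∧ (∀ c ∈ L, lexle D c = true) ∧
    ∀ c ∈ L, c.length ≤ 64 ∧ ∀ p ∈ c, p.1 < 3072 ∧ p.2 < 3072

/-- every clause is satisfied -/
def StEnc : Prop :=
  ∀ (D : ℕ → ℕ → ℕ → Bool) (Z : ℕ → ℕ → Bool) (U : List ℕ) (L : List (List (ℕ × ℕ))),
    Facts D Z → Case D Z U L → ∀ n, Sat (val D Z L) (clauseOf U L n)

end Pool.Agent.K7.H57.CDM
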