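import Pool.Agent.K7.H57.CDM.Enc

set_option autoImplicit false

namespace Pool.Agent.K7.H57.CDM

variable {D : ℕ → ℕ → ℕ → Bool} {Z : ℕ → ℕ → Bool} {L : List (List (ℕ × ℕ))}

lemma val_D {f a k : ℕ} (hf : f < 3) (ha : a < 16) (hk : k < 64) : val D Z L (vD f a k) = D f a k := by
  have h1 : vD f a k < 3072 := by unfold vD; omega
  have h2 : vD f a k / 1024 = f := by unfold vD; omega
  have h3 : vD f a k / 64 % 16 = a := by unfold vD; omega
  have h4 : vD f a k % 64 = k := by unfold vD; omega
  rw [val, if_pos h1, h2, h3, h4]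

lemma val_lt {v : ℕ} (h : v < 3072) : val D Z L v = dval D v := by
  rw [val, if_pos h, dval]

lemma val_Z {a k : ℕ} (ha : a < 16) (hk : k < 64) : val D Z L (vZ a k) = Z a k := by
  have h1 : ¬ vZ a k < 3072 := by unfold vZ; omega
  have h1' : vZ a k < 4096 := by unfold vZ; omega
  have h3 : vZ a k / 64 % 16 = a := by unfold vZ; omega
  have h4 : vZ a k % 64 = k := by unfold vZ; omega
  rw [val, if_neg h1, if_pos h1', h3, h4]

lemma val_P {f a k : ℕ} (hf : f < 3) (ha : a < 16) (hk : k < 64) :
    val D Z L (vP f a k) = PP D f a k := by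
  have h1 : ¬ vP f a k < 3072 := by unfold vP; omega
  have h1' : ¬ vP f a k < 4096 := by unfold vP; omega
  have h1'' : ¬ vP f a k < 5120 := by unfold vP; omega
  have h1''' : vP f a k < 8192 := by unfold vP; omega
  have h2 : vP f a k / 1024 - 5 = f := by unfold vP; omega
  have h3 : vP f a k / 64 % 16 = a := by unfold vP; omega
  have h4 : vP f a k % 64 = k := by unfold vP; omega
  rw [val, if_neg h1, if_neg h1', if_neg h1'', if_pos h1''', h2, h3, h4]

lemma val_Q {f a k : ℕ} (hf : f < 3) (ha : a < 16) (hk : k < 64) :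
    val D Z L (vQ f a k) = (Z a k && PP D f a k) := by
  have h1 : ¬ vQ f a k < 3072 := by unfold vQ; omega
  have h1' : ¬ vQ f a k < 4096 := by unfold vQ; omega
  have h1'' : ¬ vQ f a k < 5120 := by unfold vQ; omega
  have h1''' : ¬ vQ f a k < 8192 := by unfold vQ; omega
  have h2 : vQ f a k / 1024 - 8 = f := by unfold vQ; omega
  have h3 : vQ f a k / 64 % 16 = a := by unfold vQ; omega
  have h4 : vQ f a k % 64 = k := by unfold vQ; omega
  rw [val, if_neg h1, if_neg h1', if_neg h1'', if_neg h1''', h2, h3, h4]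

lemma val_L {c p : ℕ} (hc : c < 16) (hp : p < 64) :
    val D Z L (vL c p) = pre D (L.getD c []) (p + 1) := by
  have h1 : ¬ vL c p < 3072 := by unfold vL; omega
  have h1' : ¬ vL c p < 4096 := by unfold vL; omega
  have h1'' : vL c p < 5120 := by unfold vL; omega
  have h2 : (vL c p - 4096) / 64 = c := by unfold vL; omega
  have h4 : vL c p % 64 = p := by unfold vL; omega
  rw [val, if_neg h1, if_neg h1', if_pos h1'', h2, h4]

lemma lv_ps (w : ℕ → Bool) (v : ℕ) : lv w (ps v) = w v := by
  have h1 : ps v % 2 = 0 := by unfold ps; omega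
  have h2 : ps v / 2 = v := by unfold ps; omega
  rw [lv, if_pos h1, h2]

lemma lv_ng (w : ℕ → Bool) (v : ℕ) : lv w (ng v) = !(w v) := by
  have h1 : ¬ ng v % 2 = 0 := by unfold ng; omega
  have h2 : ng v / 2 = v := by unfold ng; omega
  rw [lv, if_neg h1, h2]

lemma sat_triv (w : ℕ → Bool) : Sat w triv := by
  cases h : w 0 with
  | true => exact ⟨0, by simp [triv], by simp [lv, h]⟩
  | false => exact ⟨1, by simp [triv], by simp [lv, h]⟩

lemma sat_xor3 (w : ℕ → Bool) (s x y z : ℕ) (h : w x = (w y ^^ w z)) : Sat w (xor3 s x y z) := by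
  unfold xor3
  have key : ∀ a b c : ℕ, (lv w a || lv w b || lv w c) = true → Sat w [a, b, c] := by
    intro a b c h
    rw [Bool.or_eq_true, Bool.or_eq_true] at h
    rcases h with (h | h) | h
    · exact ⟨a, by simp, h⟩
    · exact ⟨b, by simp, h⟩
    · exact ⟨c, by simp, h⟩
  split_ifs
  all_goals
    apply key
    simp only [lv_ps, lv_ng, h]
    cases w y <;> cases w z <;> rfl

lemma and_lt {r : ℕ} (h : r < 64) : r &&& (r - 1) < 64 := lt_of_le_of_lt Nat.and_le_left h

lemma xor_lt {r s : ℕ} (h : r < 64) (h' : s < 64) : r ^^^ s < 64 :=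
  Nat.xor_lt_two_pow (n := 6) h h'

lemma xor_lt16 {r s : ℕ} (h : r < 16) (h' : s < 16) : r ^^^ s < 16 :=
  Nat.xor_lt_two_pow (n := 4) h h'

lemma sat_two (w : ℕ → Bool) (a b : ℕ) (h : (lv w a || lv w b) = true) : Sat w [a, b] := by
  rw [Bool.or_eq_true] at h
  rcases h with h | h
  · exact ⟨a, by simp, h⟩
  · exact ⟨b, by simp, h⟩

lemma sat_three (w : ℕ → Bool) (a b c : ℕ) (h : (lv w a || lv w b || lv w c) = true) :
    Sat w [a, b, c] := by
  rw [Bool.or_eq_true, Bool.or_eq_true] at h
  rcases h with (h | h) | h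
  · exact ⟨a, by simp, h⟩
  · exact ⟨b, by simp, h⟩
  · exact ⟨c, by simp, h⟩

lemma pp_row {f a k i : ℕ} (hi : i < 4) (ha : a.testBit i = true) (h : PP D f a k = true) :
    D f (2 ^ i) k = false := by
  unfold PP at h
  rw [Bool.and_eq_true, List.all_eq_true, List.all_eq_true] at h
  have := h.1 i (List.mem_range.2 hi)
  rw [ha] at this
  simpa using this

lemma pp_col {f a k j : ℕ} (hj : j < 6) (hk : k.testBit j = true) (h : PP D f a k = true) :
    D f a (2 ^ j) = false := by
  unfold PP at h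
  rw [Bool.and_eq_true, List.all_eq_true, List.all_eq_true] at h
  have := h.2 j (List.mem_range.2 hj)
  rw [hk] at this
  simpa using this

lemma pow_lt16 {i : ℕ} (h : i < 4) : 2 ^ i < 16 := by
  calc 2 ^ i < 2 ^ 4 := Nat.pow_lt_pow_right (by norm_num) h
    _ = 16 := by norm_num

lemma pow_lt64 {i : ℕ} (h : i < 6) : 2 ^ i < 64 := by
  calc 2 ^ i < 2 ^ 6 := Nat.pow_lt_pow_right (by norm_num) h
    _ = 64 := by norm_num

/-- if the first `n` pairs are equal then the next one is ordered -/
lemma lex_step : ∀ (c : List (ℕ × ℕ)) (n : ℕ), lexle D c = true → n < c.length → pre D c n = true →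
    dval D (c.getD n (0, 0)).1 = true → dval D (c.getD n (0, 0)).2 = true := by
  intro c
  induction c with
  | nil => intro n _ h; simp at h
  | cons p c ih =>
    intro n h hn hp hx
    rw [lexle] at h
    cases n with
    | zero =>
      simp only [List.getD_cons_zero] at hx ⊢
      split_ifs at h with h1
      · rw [← beq_iff_eq.1 h1]; exact hx
      · rw [hx] at h; simp at h
    | succ n =>
      have hp' : (dval D p.1 == dval D p.2) = true ∧ pre D c n = true := by
        unfold pre at hp ⊢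
        rw [List.take_succ_cons, List.all_cons, Bool.and_eq_true] at hp
        exact hp
      rw [if_pos hp'.1] at h
      simp only [List.getD_cons_succ] at hx ⊢
      exact ih n h (by simpa using hn) hp'.2 hx

lemma pre_succ (c : List (ℕ × ℕ)) (n : ℕ) (hn : n < c.length) (h : pre D c n = true)
    (he : dval D (c.getD n (0, 0)).1 = dval D (c.getD n (0, 0)).2) : pre D c (n + 1) = true := by
  unfold pre at h ⊢
  rw [List.take_add_one, List.all_append, h, Bool.true_and]
  rw [List.getElem?_eq_getElem hn]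
  rw [List.getD_eq_getElem _ _ hn] at he
  simp [he]

lemma pre_zero (c : List (ℕ × ℕ)) : pre D c 0 = true := by simp [pre]

lemma sat_if {w : ℕ → Bool} {c : Prop} [Decidable c] {A B : List ℕ} (h1 : c → Sat w A)
    (h2 : ¬ c → Sat w B) : Sat w (if c then A else B) := by
  by_cases h : c
  · rw [if_pos h]; exact h1 h
  · rw [if_neg h]; exact h2 h

lemma sat_if_triv {w : ℕ → Bool} {c : Prop} [Decidable c] {A : List ℕ} (h1 : c → Sat w A) :
    Sat w (if c then A else triv) := sat_if h1 fun _ => sat_triv w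

lemma sat_app {w : ℕ → Bool} {A B : List ℕ} (h : (∃ l ∈ A, lv w l = true) ∨ Sat w B) :
    Sat w (A ++ B) := by
  rcases h with ⟨l, h1, h2⟩ | ⟨l, h1, h2⟩
  · exact ⟨l, List.mem_append_left _ h1, h2⟩
  · exact ⟨l, List.mem_append_right _ h1, h2⟩

theorem enc : StEnc := by
  intro D Z U L hF hC n
  obtain ⟨hU, hL, hB⟩ := hC
  have hp : n / 32 % 64 < 64 := Nat.mod_lt _ (by norm_num)
  have hq : n / 2048 % 64 < 64 := Nat.mod_lt _ (by norm_num)
  have hr : n / 131072 % 64 < 64 := Nat.mod_lt _ (by norm_num)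
  have hs : n / 8388608 % 64 < 64 := Nat.mod_lt _ (by norm_num)
  unfold clauseOf
  generalize n % 32 = F
  generalize n / 32 % 64 = p at hp
  generalize n / 2048 % 64 = q at hq
  generalize n / 131072 % 64 = r at hr
  generalize n / 8388608 % 64 = s at hs
  refine sat_if (fun _ => sat_if_triv fun c => ?_) fun _ => ?_
  · -- parity in k
    obtain ⟨a1, a2, a3⟩ := c
    apply sat_xor3
    have e1 := and_lt hr
    have e2 := xor_lt hr e1
    rw [val_D a1 a2 hr, val_D a1 a2 e1, val_D a1 a2 e2, hF.addk p q r _ a1 a2 hr e1]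
    cases D p q r <;> cases D p q (r &&& (r - 1)) <;> rfl
  refine sat_if (fun _ => sat_if_triv fun c => ?_) fun _ => ?_
  · obtain ⟨a1, a2, a3⟩ := c
    apply sat_xor3
    have e1 : q &&& (q - 1) < 16 := lt_of_le_of_lt Nat.and_le_left a2
    have e2 := xor_lt16 a2 e1
    rw [val_D a1 a2 hr, val_D a1 e1 hr, val_D a1 e2 hr, hF.adda p q _ r a1 a2 e1 hr]
    cases D p q r <;> cases D p (q &&& (q - 1)) r <;> rfl
  refine sat_if (fun _ => sat_if_triv fun c => ?_) fun _ => ?_
  · apply sat_xor3
    rw [val_D (by norm_num) c hq, val_D (by norm_num) c hq, val_D (by norm_num) c hq,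
      hF.third p q c hq]
    cases D 0 p q <;> cases D 1 p q <;> rfl
  refine sat_if (fun _ => sat_if_triv fun c => ?_) fun _ => ?_
  · obtain ⟨a1, a2, a3, a4⟩ := c
    apply sat_two
    rw [lv_ng, lv_ng, val_Z a3 hr, val_D a1 a3 hr]
    cases h : Z q r with
    | false => rfl
    | true => rw [hF.zd p q r a1 a2 a3 a4 hr h]; rfl
  refine sat_if (fun _ => sat_if_triv fun c => ?_) fun _ => ?_
  · obtain ⟨a1, a2, a3, a4, a5⟩ := c
    apply sat_three
    rw [lv_ng, lv_ng, lv_ps, val_Z a2 hq, val_Z a2 hr, val_Z a2 (xor_lt hq hr)]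
    cases h : Z p q with
    | false => rfl
    | true =>
      cases h' : Z p r with
      | false => rfl
      | true => rw [hF.zk p q r a1 a2 a3 hq a4 hr a5 h h']; rfl
  refine sat_if (fun _ => sat_if_triv fun c => ?_) fun _ => ?_
  · obtain ⟨a1, a2, a3, a4, a5, a6⟩ := c
    apply sat_three
    rw [lv_ng, lv_ng, lv_ps, val_Z a3 hp, val_Z a5 hp, val_Z (xor_lt16 a3 a5) hp]
    cases h : Z q p with
    | false => rfl
    | true =>
      cases h' : Z r p with
      | false => rfl
      | true => rw [hF.za p q r a1 hp a2 a3 a4 a5 a6 h h']; rfl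
  refine sat_if (fun _ => sat_if_triv fun c => ?_) fun _ => ?_
  · obtain ⟨a1, a2, a3, a4, a5, a6, a7, a8, a9, a10, a11⟩ := c
    apply sat_three
    rw [lv_ng, lv_ng, lv_ng, val_Z a3 hp, val_Z a5 hp, val_Z a7 hp]
    have := hF.ind p q r s a1 hp a2 a3 a4 a5 a6 a7 a8 a9 a10 a11
    cases h : Z q p <;> cases h' : Z r p <;> cases h'' : Z s p <;> simp_all
  refine sat_if (fun _ => sat_if_triv fun c => ?_) fun _ => ?_
  · obtain ⟨a1, a2, a3⟩ := c
    obtain ⟨k, k1, k2, k3, k4⟩ := hF.hyp p q a1 a2 a3 hq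
    refine ⟨ps (vZ p k), ?_, ?_⟩
    · rw [List.mem_map]
      refine ⟨k, ?_, rfl⟩
      rw [List.mem_filter, List.mem_range]
      refine ⟨k2, ?_⟩
      rw [k3]
      simp
      omega
    · rw [lv_ps, val_Z a2 k2, k4]
  refine sat_if (fun _ => sat_if_triv fun c => ?_) fun _ => ?_
  · obtain ⟨a1, a2, a3, a4⟩ := c
    apply sat_two
    rw [lv_ng, lv_ng, val_P a1 a2 hr, val_D a1 (pow_lt16 a3) hr]
    cases h : PP D p q r with
    | false => rfl
    | true => rw [pp_row a3 a4 h]; rfl
  refine sat_if (fun _ => sat_if_triv fun c => ?_) fun _ => ?_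
  · obtain ⟨a1, a2, a3, a4⟩ := c
    apply sat_two
    rw [lv_ng, lv_ng, val_P a1 a2 hr, val_D a1 a2 (pow_lt64 a3)]
    cases h : PP D p q r with
    | false => rfl
    | true => rw [pp_col a3 a4 h]; rfl
  refine sat_if (fun _ => sat_if_triv fun c => ?_) fun _ => ?_
  · obtain ⟨a1, a2, a3⟩ := c
    cases h : Z p q with
    | false => exact ⟨ng (vZ p q), by simp, by rw [lv_ng, val_Z a2 hq, h]; rfl⟩
    | true =>
      rcases hF.col p q a1 a2 a3 hq h with h' | h' | h'
      · exact ⟨ps (vP 0 p q), by simp, by rw [lv_ps, val_P (by norm_num) a2 hq, h']⟩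
      · exact ⟨ps (vP 1 p q), by simp, by rw [lv_ps, val_P (by norm_num) a2 hq, h']⟩
      · exact ⟨ps (vP 2 p q), by simp, by rw [lv_ps, val_P (by norm_num) a2 hq, h']⟩
  refine sat_if (fun _ => sat_if_triv fun c => ?_) fun _ => ?_
  · obtain ⟨a1, a2⟩ := c
    apply sat_two
    rw [lv_ng, lv_ps, val_Q a1 a2 hr, val_Z a2 hr]
    cases Z q r <;> simp
  refine sat_if (fun _ => sat_if_triv fun c => ?_) fun _ => ?_
  · obtain ⟨a1, a2⟩ := c
    apply sat_two
    rw [lv_ng, lv_ps, val_Q a1 a2 hr, val_P a1 a2 hr]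
    cases Z q r <;> cases PP D p q r <;> rfl
  refine sat_if (fun _ => sat_if_triv fun c => ?_) fun _ => ?_
  · obtain ⟨a1, a2, a3⟩ := c
    obtain ⟨k, k1, k2, k3, k4⟩ := hF.lay p q a1 a2 a3
    refine ⟨ps (vQ p q k), ?_, ?_⟩
    · rw [List.mem_map]
      exact ⟨k - 1, List.mem_range.2 (by omega), by rw [Nat.sub_add_cancel k1]⟩
    · rw [lv_ps, val_Q a1 a3 k2, k3, k4]; rfl
  refine sat_if (fun _ => sat_if_triv fun c => ?_) fun _ => ?_
  · obtain ⟨a1, a2, a3⟩ := c
    obtain ⟨j, k1, k2⟩ := hF.onto p q a1 a2 a3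
    refine ⟨ps (vD p q (2 ^ j)), ?_, ?_⟩
    · rw [List.mem_map]
      exact ⟨j, List.mem_range.2 k1, rfl⟩
    · rw [lv_ps, val_D a1 a3 (pow_lt64 k1), k2]
  refine sat_if (fun _ => sat_if_triv fun c => ?_) fun _ => ?_
  · refine ⟨U.getD p 0, by simp, ?_⟩
    apply hU
    rw [List.getD_eq_getElem _ _ c]
    exact List.getElem_mem _
  refine sat_if_triv fun c => ?_
  obtain ⟨hp16, c⟩ := c
  -- lexicographic
  have hmem : L.getD p [] ∈ L := by
    by_cases h : p < L.length
    · rw [List.getD_eq_getElem _ _ h]; exact List.getElem_mem _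
    · rw [List.getD_eq_default _ _ (by omega)] at c; simp at c
  have hlex := hL _ hmem
  obtain ⟨hlen, hvars⟩ := hB _ hmem
  have hxy := hvars _ (by
    have : (L.getD p []).getD q (0, 0) ∈ L.getD p [] := by
      rw [List.getD_eq_getElem _ _ c]; exact List.getElem_mem _
    exact this)
  generalize hcc : L.getD p [] = cc at c hlex hlen hxy
  have hstep := lex_step (D := D) cc q hlex c
  have hsucc := pre_succ (D := D) cc q c
  simp only
  generalize (cc.getD q (0, 0)).1 = x at hxy hstep hsucc
  generalize (cc.getD q (0, 0)).2 = y at hxy hstep hsucc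
  have hLq : val D Z L (vL p q) = pre D cc (q + 1) := by rw [val_L hp16 hq, hcc]
  have hx : val D Z L x = dval D x := val_lt hxy.1
  have hy : val D Z L y = dval D y := val_lt hxy.2
  -- the prefix
  have hpre : (∃ l ∈ (if q = 0 then [] else [ng (vL p (q - 1))] : List ℕ),
      lv (val D Z L) l = true) ∨ pre D cc q = true := by
    by_cases h0 : q = 0
    · right; rw [h0]; exact pre_zero _
    · rw [if_neg h0]
      cases h : pre D cc q with
      | true => right; rfl
      | false =>
        left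
        refine ⟨_, List.mem_singleton_self _, ?_⟩
        rw [lv_ng, val_L hp16 (by omega), hcc, Nat.sub_add_cancel (by omega), h]
        rfl
  refine sat_if (fun _ => ?_) fun _ => sat_if (fun _ => ?_) fun _ => ?_
  · apply sat_app
    rcases hpre with h | h
    · exact Or.inl h
    · right
      apply sat_two
      rw [lv_ng, lv_ps, hx, hy]
      cases h1 : dval D x with
      | false => rfl
      | true => rw [hstep h h1]; rfl
  · apply sat_app
    rcases hpre with h | h
    · exact Or.inl h
    · right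
      apply sat_three
      rw [lv_ps, lv_ps, lv_ps, hx, hy, hLq]
      cases h1 : dval D x with
      | true => rfl
      | false =>
        cases h2 : dval D y with
        | true => rfl
        | false => rw [hsucc h (by rw [h1, h2])]; rfl
  · apply sat_app
    rcases hpre with h | h
    · exact Or.inl h
    · right
      apply sat_three
      rw [lv_ng, lv_ng, lv_ps, hx, hy, hLq]
      cases h1 : dval D x with
      | false => rfl
      | true =>
        cases h2 : dval D y with
        | false => rfl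
        | true => rw [hsucc h (by rw [h1, h2])]; rfl

end Pool.Agent.K7.H57.CDM
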